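import Pool.Agent.H5.Jump.Primes

/-!
The jump inequality for primes in short intervals: on average over `n ∈ (X, 2 X]` the normalised
count `H ↦ π(n, H) log n / H` makes at most `C / δ ^ 2` jumps of size `δ` as `H` runs from `log n`
to `n`.
-/

namespace Pool.Agent.Results.MP_31d0eb_nt.JumpInequality

/-- There is an absolute constant `C` such that for all `X ≥ 4`, `δ > 0`: if for every integer
`n ∈ (X, 2 X]` there are integers `log n ≤ H 0 < H 1 < ... < H (J n) ≤ n` such that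
`|π(n, H (i + 1)) log n / H (i + 1) - π(n, H i) log n / H i| ≥ δ` for all `i < J n`, then
`∑ J n ≤ C / δ ^ 2 * X`. Here `π(n, H)` is the number of primes in `(n, n + H]`. -/
theorem result : ∃ C : ℝ, 0 < C ∧ ∀ X : ℕ, 4 ≤ X → ∀ δ : ℝ, 0 < δ → ∀ J : ℕ → ℕ,
    (∀ n : ℕ, X < n → n ≤ 2 * X → ∃ H : ℕ → ℕ, Real.log n ≤ H 0 ∧ H (J n) ≤ n ∧
      ∀ i < J n, H i < H (i + 1) ∧
        δ ≤ |(((Finset.Ioc n (n + H (i + 1))).filter Nat.Prime).card : ℝ) * Real.log n /
            H (i + 1) -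
          (((Finset.Ioc n (n + H i)).filter Nat.Prime).card : ℝ) * Real.log n / H i|) →
    ∑ n ∈ Finset.Ioc X (2 * X), (J n : ℝ) ≤ C / δ ^ 2 * X :=
  Pool.Agent.H5.Jump.jumps_primes

end Pool.Agent.Results.MP_31d0eb_nt.JumpInequality
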